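import Mathlib
import Pool.Agent.Y28.LR.Stm
import Pool.Agent.H97R3.VR.Spec

/-!
Property (LR) for semidirect products of finitely generated free groups and finite groups
permuting a basis.
-/

set_option autoImplicit false

namespace Pool.Agent.Y43.LR

open Pool.Agent.H97R3.VR Pool.Agent.Y28.LR

attribute [local instance] Classical.propDecidable

section words

variable {α : Type}

/-- length of the longest common prefix of two lists -/
noncomputable def cp : List α → List α → ℕ
  | x :: xs, y :: ys => if x = y then cp xs ys + 1 else 0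
  | [], _ => 0
  | _ :: _, [] => 0

theorem cp_nil_left (b : List α) : cp [] b = 0 := by cases b <;> rfl

theorem cp_nil_right (a : List α) : cp a [] = 0 := by cases a <;> rfl

theorem cp_cons (x y : α) (a b : List α) :
    cp (x :: a) (y :: b) = if x = y then cp a b + 1 else 0 := rfl

theorem cp_ultra (a b c : List α) : min (cp a b) (cp b c) ≤ cp a c := by
  induction a generalizing b c with
  | nil => rw [cp_nil_left]; simp
  | cons x a ih =>
    cases b with
    | nil => rw [cp_nil_right]; simp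
    | cons y b =>
      cases c with
      | nil => rw [cp_nil_right]; simp
      | cons z c =>
        rw [cp_cons, cp_cons, cp_cons]
        by_cases h1 : x = y
        · by_cases h2 : y = z
          · have := ih b c
            rw [if_pos h1, if_pos h2, if_pos (h1.trans h2)]
            omega
          · rw [if_neg h2]
            simp
        · rw [if_neg h1]
          simp

theorem cp_split (a b : List α) : ∃ p a' b' : List α, a = p ++ a' ∧ b = p ++ b' ∧
    p.length = cp a b ∧ ∀ x ∈ a'.head?, ∀ y ∈ b'.head?, x ≠ y := by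
  induction a generalizing b with
  | nil => exact ⟨[], [], b, rfl, rfl, by rw [cp_nil_left]; rfl, by simp⟩
  | cons x a ih =>
    cases b with
    | nil => exact ⟨[], x :: a, [], rfl, rfl, rfl, by simp⟩
    | cons y b =>
      by_cases h : x = y
      · subst h
        obtain ⟨p, a', b', h1, h2, h3, h4⟩ := ih b
        refine ⟨x :: p, a', b', by rw [h1]; rfl, by rw [h2]; rfl, ?_, h4⟩
        rw [cp_cons, if_pos rfl, List.length_cons, h3]
      · refine ⟨[], x :: a, y :: b, rfl, rfl, ?_, ?_⟩
        · rw [cp_cons, if_neg h]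
          rfl
        · intro u hu v hv
          simp only [List.head?_cons, Option.mem_def, Option.some.injEq] at hu hv
          subst hu hv
          exact h

theorem cp_comm (a b : List α) : cp a b = cp b a := by
  induction a generalizing b with
  | nil => rw [cp_nil_left, cp_nil_right]
  | cons x a ih =>
    cases b with
    | nil => rfl
    | cons y b =>
      rw [cp_cons, cp_cons, ih b]
      by_cases h : x = y
      · rw [if_pos h, if_pos h.symm]
      · rw [if_neg h, if_neg (fun h' => h h'.symm)]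

end words

variable {Ω : Type}

/-- distance formula -/
theorem norm_inv_mul (u v : FreeGroup Ω) :
    (u⁻¹ * v).norm + 2 * cp u.toWord v.toWord = u.norm + v.norm := by
  obtain ⟨p, a, b, h1, h2, h3, h4⟩ := cp_split u.toWord v.toWord
  have hu : FreeGroup.IsReduced (p ++ a) := by rw [← h1]; exact FreeGroup.isReduced_toWord
  have hv : FreeGroup.IsReduced (p ++ b) := by rw [← h2]; exact FreeGroup.isReduced_toWord
  have ha : FreeGroup.IsReduced a := List.IsChain.right_of_append (l₁ := p) hu
  have hb : FreeGroup.IsReduced b := List.IsChain.right_of_append (l₁ := p) hv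
  have hinv : FreeGroup.IsReduced (FreeGroup.invRev a) := by
    have h5 := FreeGroup.isReduced_iff_reduce_eq.mp ha
    rw [FreeGroup.isReduced_iff_reduce_eq, FreeGroup.reduce_invRev, h5]
  have hab : FreeGroup.IsReduced (FreeGroup.invRev a ++ b) := by
    rw [FreeGroup.IsReduced, List.isChain_append]
    refine ⟨hinv, hb, ?_⟩
    intro x hx y hy hxy
    have h5 : ∃ z ∈ a.head?, x = (z.1, !z.2) := by
      cases a with
      | nil => simp [FreeGroup.invRev] at hx
      | cons z a =>
        simp only [FreeGroup.invRev, List.map_cons, List.reverse_cons, List.getLast?_append,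
          List.getLast?_singleton, Option.some_or, Option.mem_def, Option.some.injEq] at hx
        exact ⟨z, rfl, hx.symm⟩
    obtain ⟨z, hz, rfl⟩ := h5
    have h6 := h4 z hz y hy
    simp only at hxy
    by_contra h7
    apply h6
    refine Prod.ext hxy ?_
    simp only at h7
    cases h8 : z.2 <;> cases h9 : y.2 <;> simp_all
  have e1 : u = FreeGroup.mk p * FreeGroup.mk a := by
    rw [FreeGroup.mul_mk, ← h1, FreeGroup.mk_toWord]
  have e2 : v = FreeGroup.mk p * FreeGroup.mk b := by
    rw [FreeGroup.mul_mk, ← h2, FreeGroup.mk_toWord]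
  have e3 : u⁻¹ * v = FreeGroup.mk (FreeGroup.invRev a ++ b) := by
    rw [e1, e2, mul_inv_rev, mul_assoc, inv_mul_cancel_left, FreeGroup.inv_mk, FreeGroup.mul_mk]
  have e4 : (u⁻¹ * v).norm = a.length + b.length := by
    rw [e3, FreeGroup.norm, FreeGroup.toWord_mk, FreeGroup.isReduced_iff_reduce_eq.mp hab,
      List.length_append, FreeGroup.invRev_length]
  have e5 : u.norm = p.length + a.length := by rw [FreeGroup.norm, h1, List.length_append]
  have e6 : v.norm = p.length + b.length := by rw [FreeGroup.norm, h2, List.length_append]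
  omega

/-- the Cayley tree of the free group -/
def Tr (Ω : Type) : SimpleGraph (FreeGroup Ω) where
  Adj u v := ∃ x : Ω × Bool, v = u * FreeGroup.mk [x]
  symm := ⟨by
    rintro u v ⟨x, rfl⟩
    refine ⟨(x.1, !x.2), ?_⟩
    have : FreeGroup.mk [(x.1, !x.2)] = (FreeGroup.mk [x])⁻¹ := by
      rw [FreeGroup.inv_mk]
      simp [FreeGroup.invRev]
    rw [this, mul_inv_cancel_right]⟩
  loopless := ⟨by
    rintro u ⟨x, hx⟩
    have h1 : FreeGroup.mk [x] = 1 := by
      have := mul_left_cancel ((mul_one u).trans hx)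
      exact this.symm
    have h2 := congrArg FreeGroup.toWord h1
    rw [FreeGroup.toWord_mk, FreeGroup.toWord_one] at h2
    simp at h2⟩

theorem tr_adj {u v : FreeGroup Ω} : (Tr Ω).Adj u v ↔ ∃ x : Ω × Bool, v = u * FreeGroup.mk [x] :=
  Iff.rfl

theorem tr_walk (L : List (Ω × Bool)) (u : FreeGroup Ω) :
    ∃ w : (Tr Ω).Walk u (u * FreeGroup.mk L), w.length = L.length := by
  induction L generalizing u with
  | nil =>
    have h1 : FreeGroup.mk ([] : List (Ω × Bool)) = 1 := rfl
    rw [h1, mul_one]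
    exact ⟨SimpleGraph.Walk.nil, rfl⟩
  | cons x L ih =>
    obtain ⟨w, hw⟩ := ih (u * FreeGroup.mk [x])
    have he : u * FreeGroup.mk (x :: L) = u * FreeGroup.mk [x] * FreeGroup.mk L := by
      rw [mul_assoc, FreeGroup.mul_mk]; rfl
    rw [he]
    have hadj : (Tr Ω).Adj u (u * FreeGroup.mk [x]) := ⟨x, rfl⟩
    exact ⟨SimpleGraph.Walk.cons hadj w, by rw [SimpleGraph.Walk.length_cons, hw]; rfl⟩

theorem tr_dist' (u v : FreeGroup Ω) :
    (Tr Ω).dist u v = (u⁻¹ * v).norm ∧ (Tr Ω).Reachable u v := by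
  have he : u * FreeGroup.mk (u⁻¹ * v).toWord = v := by
    rw [FreeGroup.mk_toWord]; simp
  have hex := tr_walk (u⁻¹ * v).toWord u
  rw [he] at hex
  obtain ⟨w, hw⟩ := hex
  refine ⟨le_antisymm ?_ ?_, w.reachable⟩
  · have := SimpleGraph.dist_le w
    rw [hw] at this
    exact this
  · obtain ⟨w', hw'⟩ := w.reachable.exists_walk_length_eq_dist
    rw [← hw']
    clear hw hw' w he
    induction w' with
    | nil => simp
    | @cons u v t h p ih =>
      rw [SimpleGraph.Walk.length_cons]
      obtain ⟨x, hx⟩ := h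
      have h1 : u⁻¹ * t = FreeGroup.mk [x] * (v⁻¹ * t) := by
        rw [hx]; group
      rw [h1]
      refine (FreeGroup.norm_mul_le _ _).trans ?_
      have h2 : (FreeGroup.mk [x]).norm ≤ 1 := by
        simpa using (FreeGroup.norm_mk_le (L₁ := [x]))
      omega

theorem tr_dist (u v : FreeGroup Ω) : (Tr Ω).dist u v = (u⁻¹ * v).norm := (tr_dist' u v).1

theorem tr_conn : (Tr Ω).Connected := by
  have : Nonempty (FreeGroup Ω) := ⟨1⟩
  exact ⟨fun a b => (tr_dist' a b).2⟩

/-- distances from the point of view of a base point -/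
theorem tr_dist_base (t u v : FreeGroup Ω) :
    (Tr Ω).dist u v + 2 * cp (t⁻¹ * u).toWord (t⁻¹ * v).toWord =
      (Tr Ω).dist t u + (Tr Ω).dist t v := by
  have h := norm_inv_mul (t⁻¹ * u) (t⁻¹ * v)
  have e : (t⁻¹ * u)⁻¹ * (t⁻¹ * v) = u⁻¹ * v := by group
  rw [e] at h
  rw [tr_dist, tr_dist, tr_dist]
  exact h

/-- the four point condition -/
theorem four_pt (x y z t : FreeGroup Ω) :
    (Tr Ω).dist x y + (Tr Ω).dist z t ≤
      max ((Tr Ω).dist x z + (Tr Ω).dist y t) ((Tr Ω).dist x t + (Tr Ω).dist y z) := by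
  have h1 := tr_dist_base t x y
  have h2 := tr_dist_base t x z
  have h3 := tr_dist_base t z y
  have h4 := cp_ultra (t⁻¹ * x).toWord (t⁻¹ * z).toWord (t⁻¹ * y).toWord
  have e1 : (Tr Ω).dist t x = (Tr Ω).dist x t := SimpleGraph.dist_comm
  have e2 : (Tr Ω).dist t y = (Tr Ω).dist y t := SimpleGraph.dist_comm
  have e3 : (Tr Ω).dist t z = (Tr Ω).dist z t := SimpleGraph.dist_comm
  have e4 : (Tr Ω).dist y z = (Tr Ω).dist z y := SimpleGraph.dist_comm
  omega

theorem tr_median : IsMedian (Tr Ω) := by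
  refine ⟨tr_conn, ?_⟩
  intro u v w
  obtain ⟨p, a, b, h1, h2, h3, h4⟩ := cp_split (u⁻¹ * v).toWord (u⁻¹ * w).toWord
  have hu : FreeGroup.IsReduced (p ++ a) := by rw [← h1]; exact FreeGroup.isReduced_toWord
  have hp : FreeGroup.IsReduced p := List.IsChain.left_of_append (l₂ := a) hu
  have hpw : (FreeGroup.mk p).toWord = p := by
    rw [FreeGroup.toWord_mk, FreeGroup.isReduced_iff_reduce_eq.mp hp]
  have hcpa : ∀ c : List (Ω × Bool), cp p (p ++ c) = p.length := by
    intro c
    induction p with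
    | nil => rw [cp_nil_left]; rfl
    | cons x p _ =>
      clear h1 h2 h3 hu hp hpw
      have : ∀ q : List (Ω × Bool), cp q (q ++ c) = q.length := by
        intro q
        induction q with
        | nil => rw [cp_nil_left]; rfl
        | cons y q ih => rw [List.cons_append, cp_cons, if_pos rfl, ih, List.length_cons]
      exact this _
  have hmv := tr_dist_base u (u * FreeGroup.mk p) v
  have hmw := tr_dist_base u (u * FreeGroup.mk p) w
  have hvw := tr_dist_base u v w
  rw [inv_mul_cancel_left, hpw, h1, hcpa] at hmv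
  rw [inv_mul_cancel_left, hpw, h2, hcpa] at hmw
  rw [← h3] at hvw
  have hum : (Tr Ω).dist u (u * FreeGroup.mk p) = p.length := by
    rw [tr_dist, inv_mul_cancel_left, FreeGroup.norm, hpw]
  have hlv : (Tr Ω).dist u v = p.length + a.length := by
    rw [tr_dist, FreeGroup.norm, h1, List.length_append]
  have hlw : (Tr Ω).dist u w = p.length + b.length := by
    rw [tr_dist, FreeGroup.norm, h2, List.length_append]
  have ec : (Tr Ω).dist v (u * FreeGroup.mk p) = (Tr Ω).dist (u * FreeGroup.mk p) v :=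
    SimpleGraph.dist_comm
  refine ⟨u * FreeGroup.mk p, ⟨?_, ?_, ?_⟩, ?_⟩
  · unfold H97R3.VR.Btw
    omega
  · unfold H97R3.VR.Btw
    omega
  · unfold H97R3.VR.Btw
    omega
  · rintro m ⟨b1, b2, b3⟩
    unfold H97R3.VR.Btw at b1 b2 b3
    have c1 := tr_dist_base u m v
    have c2 := tr_dist_base u m w
    have ec' : (Tr Ω).dist v m = (Tr Ω).dist m v := SimpleGraph.dist_comm
    have hlen : ∀ x y : List (Ω × Bool), cp x y = x.length → ∃ c, y = x ++ c := by
      intro x y hxy
      obtain ⟨q, x', y', g1, g2, g3, -⟩ := cp_split x y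
      have g4 : x' = [] := by
        have := congrArg List.length g1
        rw [List.length_append] at this
        exact List.length_eq_zero_iff.mp (by omega)
      subst g4
      rw [List.append_nil] at g1
      subst g1
      exact ⟨y', g2⟩
    have hm : (Tr Ω).dist u m = (u⁻¹ * m).toWord.length := by rw [tr_dist]; rfl
    obtain ⟨c, hc⟩ := hlen (u⁻¹ * m).toWord (u⁻¹ * v).toWord (by omega)
    have hpm : (u⁻¹ * m).toWord.length = p.length := by omega
    rw [h1] at hc
    have h5 := (List.append_inj hc hpm.symm).1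
    have h6 : u⁻¹ * m = FreeGroup.mk p := by
      rw [h5, FreeGroup.mk_toWord]
    rw [← h6, mul_inv_cancel_left]

theorem no_square {x y w z : FreeGroup Ω} (h : Square (Tr Ω) x y w z) : False := by
  have h1 := dist_two tr_median h.xy.symm h.yw h.ne
  have h2 := dist_two tr_median h.xy h.zx.symm h.ne'
  have h3 := four_pt x w y z
  rw [h1, h2, adj_one h.xy, adj_one h.wz, adj_one h.zx.symm] at h3
  have h4 : (Tr Ω).dist w y = 1 := adj_one h.yw.symm
  rw [h4] at h3
  simp at h3

variable {Q : Type} [Group Q] [MulAction Q Ω]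

/-- the action on the Cayley tree -/
instance actW : MulAction (FreeGroup Ω ⋊[permAct Q Ω] Q) (FreeGroup Ω) where
  smul g u := g.left * g.right • u
  one_smul u := by
    change (1 : FreeGroup Ω ⋊[permAct Q Ω] Q).left *
      (1 : FreeGroup Ω ⋊[permAct Q Ω] Q).right • u = u
    rw [SemidirectProduct.one_left, SemidirectProduct.one_right, one_smul, one_mul]
  mul_smul g h u := by
    change (g * h).left * (g * h).right • u = g.left * g.right • (h.left * h.right • u)
    rw [SemidirectProduct.mul_left, SemidirectProduct.mul_right, smul_mul', mul_smul, mul_assoc]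
    rfl

theorem actW_apply (g : FreeGroup Ω ⋊[permAct Q Ω] Q) (u : FreeGroup Ω) :
    g • u = g.left * g.right • u := rfl

theorem actW_adj (g : FreeGroup Ω ⋊[permAct Q Ω] Q) (u v : FreeGroup Ω) (h : (Tr Ω).Adj u v) :
    (Tr Ω).Adj (g • u) (g • v) := by
  obtain ⟨x, rfl⟩ := h
  refine ⟨(g.right • x.1, x.2), ?_⟩
  rw [actW_apply, actW_apply, smul_mul', mul_assoc]
  rfl

/-- the free group as a subgroup -/
def NW (Q Ω : Type) [Group Q] [MulAction Q Ω] : Subgroup (FreeGroup Ω ⋊[permAct Q Ω] Q) :=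
  (SemidirectProduct.rightHom (φ := permAct Q Ω)).ker

theorem NW_apply {n : FreeGroup Ω ⋊[permAct Q Ω] Q} (hn : n ∈ NW Q Ω) (u : FreeGroup Ω) :
    n • u = n.left * u := by
  have h : n.right = 1 := hn
  rw [actW_apply, h, one_smul]

theorem label {e f : FreeGroup Ω × FreeGroup Ω} (h : OPar (Tr Ω) (NW Q Ω) e f) :
    e.1⁻¹ * e.2 = f.1⁻¹ * f.2 := by
  induction h with
  | rel e f h =>
    cases h with
    | sq x y w z h => exact (no_square h).elim
    | act n hn x y =>
      simp only
      rw [NW_apply hn, NW_apply hn]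
      group
  | refl e => rfl
  | symm e f _ ih => exact ih.symm
  | trans e f g _ _ ih1 ih2 => exact ih1.trans ih2

theorem special [Finite Ω] : IsCompactSpecial (Tr Ω) (NW Q Ω) := by
  refine ⟨?_, ?_, ?_, ?_, ?_, ?_⟩
  · intro n hn x hx
    rw [NW_apply hn] at hx
    have h1 : n.left = 1 := mul_eq_right.mp hx
    have h2 : n.right = 1 := hn
    exact SemidirectProduct.ext h1 h2
  · refine ⟨{1}, Set.finite_singleton 1, fun v => ⟨⟨v⁻¹, 1⟩, rfl, ?_⟩⟩
    have : (⟨v⁻¹, 1⟩ : FreeGroup Ω ⋊[permAct Q Ω] Q) • v = v⁻¹ * v := NW_apply rfl v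
    rw [this, inv_mul_cancel]
    rfl
  · rintro x y ⟨l, rfl⟩ h
    have h1 := label h
    simp only [inv_mul_cancel_left, mul_inv_rev, inv_mul_cancel_right] at h1
    rw [FreeGroup.inv_mk] at h1
    have h2 := congrArg FreeGroup.toWord h1
    rw [FreeGroup.toWord_mk, FreeGroup.toWord_mk] at h2
    simp [FreeGroup.invRev] at h2
    have h3 := congrArg Prod.snd h2
    simp at h3
  · intro p q r o h
    exact (no_square h).elim
  · intro x y z _ _ h
    have h1 := label h
    exact mul_left_cancel h1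
  · rintro x y z _ _ ⟨p, q, r, o, h, _⟩
    exact (no_square h).elim

/-- property (LR) for `FreeGroup Ω ⋊ Q` -/
theorem lrW : P_lrW := by
  intro Ω Q _ _ _ _ H hH
  obtain ⟨S, hS⟩ := hH
  have hX : IsMedian (Tr Ω) := tr_median
  have hd := dist_smul (X := Tr Ω) (G := FreeGroup Ω ⋊[permAct Q Ω] Q) hX.conn actW_adj
  have hloc : ∀ v, ((Tr Ω).neighborSet v).Finite := by
    intro v
    have : (Tr Ω).neighborSet v = Set.range fun x : Ω × Bool => v * FreeGroup.mk [x] := by
      ext u
      constructor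
      · rintro ⟨x, rfl⟩
        exact ⟨x, rfl⟩
      · rintro ⟨x, rfl⟩
        exact ⟨x, rfl⟩
    rw [this]
    exact Set.finite_range _
  have hfi : (NW Q Ω).FiniteIndex := by
    unfold NW
    infer_instance
  obtain ⟨κ, hκ⟩ : ∃ κ : ℕ, ∀ s ∈ S, (Tr Ω).dist 1 (s • (1 : FreeGroup Ω)) ≤ κ :=
    ⟨S.sup fun s => (Tr Ω).dist 1 (s • (1 : FreeGroup Ω)), fun s hs =>
      Finset.le_sup (f := fun s => (Tr Ω).dist 1 (s • (1 : FreeGroup Ω))) hs⟩
  have hstep : ∀ x y : FreeGroup Ω ⋊[permAct Q Ω] Q, x ∈ H →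
      (Tr Ω).dist 1 (y • (1 : FreeGroup Ω)) ≤ κ →
      (∀ m, Btw (Tr Ω) 1 (x • (1 : FreeGroup Ω)) m → ∃ h' ∈ H,
        (Tr Ω).dist m (h' • (1 : FreeGroup Ω)) ≤ κ) →
      ∀ m, Btw (Tr Ω) 1 ((x * y) • (1 : FreeGroup Ω)) m → ∃ h' ∈ H,
        (Tr Ω).dist m (h' • (1 : FreeGroup Ω)) ≤ κ := by
    intro x y hx hy ih m hm
    have h1 := four_pt 1 ((x * y) • (1 : FreeGroup Ω)) (x • (1 : FreeGroup Ω)) m
    have h2 : (Tr Ω).dist (x • (1 : FreeGroup Ω)) ((x * y) • (1 : FreeGroup Ω)) ≤ κ := by
      rw [mul_smul, hd]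
      exact hy
    have e1 : (Tr Ω).dist ((x * y) • (1 : FreeGroup Ω)) m =
      (Tr Ω).dist m ((x * y) • (1 : FreeGroup Ω)) := SimpleGraph.dist_comm
    have e2 : (Tr Ω).dist ((x * y) • (1 : FreeGroup Ω)) (x • (1 : FreeGroup Ω)) =
      (Tr Ω).dist (x • (1 : FreeGroup Ω)) ((x * y) • (1 : FreeGroup Ω)) := SimpleGraph.dist_comm
    have e3 : (Tr Ω).dist (x • (1 : FreeGroup Ω)) m =
      (Tr Ω).dist m (x • (1 : FreeGroup Ω)) := SimpleGraph.dist_comm
    have htri : (Tr Ω).dist 1 (x • (1 : FreeGroup Ω)) ≤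
      (Tr Ω).dist 1 m + (Tr Ω).dist m (x • (1 : FreeGroup Ω)) := hX.conn.dist_triangle
    unfold H97R3.VR.Btw at hm ih
    by_cases hc : (Tr Ω).dist 1 m + (Tr Ω).dist m (x • (1 : FreeGroup Ω)) =
        (Tr Ω).dist 1 (x • (1 : FreeGroup Ω))
    · exact ih m hc
    · refine ⟨x, hx, ?_⟩
      omega
  have hq : ∀ h ∈ H, ∀ m, Btw (Tr Ω) 1 (h • (1 : FreeGroup Ω)) m → ∃ h' ∈ H,
      (Tr Ω).dist m (h' • (1 : FreeGroup Ω)) ≤ κ := by
    intro h hh
    have hh' : h ∈ Subgroup.closure (S : Set (FreeGroup Ω ⋊[permAct Q Ω] Q)) := by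
      rw [hS]
      exact hh
    induction hh' using Subgroup.closure_induction_right with
    | one =>
      intro m hm
      unfold H97R3.VR.Btw at hm
      rw [one_smul, SimpleGraph.dist_self] at hm
      refine ⟨1, H.one_mem, ?_⟩
      rw [one_smul]
      omega
    | mul_right x hx y hy ih =>
      have hxH : x ∈ H := by rw [← hS]; exact hx
      exact hstep x y hxH (hκ y hy) (ih hxH)
    | mul_inv_cancel x hx y hy ih =>
      have hxH : x ∈ H := by rw [← hS]; exact hx
      refine hstep x y⁻¹ hxH ?_ (ih hxH)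
      have h1 := hd y 1 (y⁻¹ • (1 : FreeGroup Ω))
      rw [smul_inv_smul] at h1
      rw [← h1, SimpleGraph.dist_comm]
      exact hκ y hy
  obtain ⟨K, hK, hHK, ρ, hρ⟩ := quasiconvex' hX hloc actW_adj (special (Q := Q)) H 1 κ hq
  refine ⟨K, hK, hHK, H.subtype.comp ρ, fun k => (ρ k).2, ?_⟩
  intro k hk
  have h1 := hρ ⟨k, hk⟩
  exact congrArg Subtype.val h1

end Pool.Agent.Y43.LR
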