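import Mathlib
import Pool.Agent.Y28.LR.Stm
import Pool.Agent.Y43.LR.LrW

/-!
A crossed homomorphism of a finite group permuting the basis of a free group is principal.
-/

set_option autoImplicit false

namespace Pool.Agent.Y43.LR

open Pool.Agent.Y28.LR

attribute [local instance] Classical.propDecidable

variable {Ω : Type}

/-- the total exponent -/
def lam (Ω : Type) : FreeGroup Ω →* Multiplicative ℤ :=
  FreeGroup.lift (fun _ => Multiplicative.ofAdd (1 : ℤ))

theorem lam_smul {C : Type} [Group C] [MulAction C Ω] (c : C) (u : FreeGroup Ω) :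
    lam Ω (c • u) = lam Ω u := by
  have h : (lam Ω).comp (MulDistribMulAction.toMonoidHom (FreeGroup Ω) c) = lam Ω := by
    refine FreeGroup.ext_hom _ _ ?_
    intro ω
    change lam Ω (c • FreeGroup.of ω) = _
    rw [smul_of]
    simp [lam]
  exact DFunLike.congr_fun h u

theorem lam_parity (L : List (Ω × Bool)) :
    ∃ k : ℤ, Multiplicative.toAdd (lam Ω (FreeGroup.mk L)) = (L.length : ℤ) + 2 * k := by
  induction L with
  | nil =>
    refine ⟨0, ?_⟩
    have : FreeGroup.mk ([] : List (Ω × Bool)) = 1 := rfl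
    rw [this, map_one]
    simp
  | cons x L ih =>
    obtain ⟨k, hk⟩ := ih
    have h1 : FreeGroup.mk (x :: L) = FreeGroup.mk [x] * FreeGroup.mk L := by
      rw [FreeGroup.mul_mk]; rfl
    rw [h1, map_mul, toAdd_mul, hk]
    obtain ⟨ω, e⟩ := x
    cases e
    · refine ⟨k - 1, ?_⟩
      have h2 : FreeGroup.mk [(ω, false)] = (FreeGroup.of ω)⁻¹ := by
        simp [FreeGroup.of, FreeGroup.inv_mk, FreeGroup.invRev]
      rw [h2, map_inv]
      simp only [lam, FreeGroup.lift_apply_of, toAdd_inv, toAdd_ofAdd, List.length_cons]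
      push_cast
      ring
    · refine ⟨k, ?_⟩
      have h2 : FreeGroup.mk [(ω, true)] = FreeGroup.of ω := rfl
      rw [h2]
      simp only [lam, FreeGroup.lift_apply_of, toAdd_ofAdd, List.length_cons]
      push_cast
      ring

theorem lam_norm (u : FreeGroup Ω) (h : lam Ω u = 1) : ∃ k : ℕ, u.norm = 2 * k := by
  obtain ⟨k, hk⟩ := lam_parity u.toWord
  rw [FreeGroup.mk_toWord, h, toAdd_one] at hk
  refine ⟨(-k).toNat, ?_⟩
  rw [FreeGroup.norm]
  omega

theorem norm_smul {C : Type} [Group C] [MulAction C Ω] (c : C) (u : FreeGroup Ω) :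
    (c • u).norm = u.norm := by
  have key : ∀ (c : C) (u : FreeGroup Ω), (c • u).norm ≤ u.norm := by
    intro c u
    have h1 : c • u = FreeGroup.mk (u.toWord.map (fun x => (c • x.1, x.2))) := by
      conv_lhs => rw [← FreeGroup.mk_toWord (x := u)]
      rfl
    rw [h1]
    refine FreeGroup.norm_mk_le.trans ?_
    rw [List.length_map]
    rfl
  refine le_antisymm (key c u) ?_
  have := key c⁻¹ (c • u)
  rwa [inv_smul_smul] at this

/-- distance -/
noncomputable def dd (u v : FreeGroup Ω) : ℕ := (u⁻¹ * v).norm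

theorem dd_comm (u v : FreeGroup Ω) : dd u v = dd v u := by
  rw [dd, dd, ← FreeGroup.norm_inv_eq]
  congr 1
  group

theorem dd_zero {u v : FreeGroup Ω} (h : dd u v = 0) : u = v := by
  rw [dd, FreeGroup.norm_eq_zero] at h
  exact (inv_mul_eq_one.mp h)

theorem four_dd (x y z t : FreeGroup Ω) :
    dd x y + dd z t ≤ max (dd x z + dd y t) (dd x t + dd y z) := by
  have := four_pt x y z t
  simp only [tr_dist] at this
  exact this

theorem fixed : P_fixed := by
  intro C Ω _ _ _ φ hφ
  have hmul : ∀ a b : C, φ (a * b) = φ a * a • φ b := fun a b => hφ a (Subgroup.mem_top a) b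
    (Subgroup.mem_top b)
  -- the action
  let A : C → FreeGroup Ω → FreeGroup Ω := fun c u => φ c * c • u
  have hA : ∀ c u, A c u = φ c * c • u := fun _ _ => rfl
  have hφA : ∀ a b : C, A a (φ b) = φ (a * b) := fun a b => by rw [hA, hmul]
  have hdA : ∀ c u v, dd (A c u) (A c v) = dd u v := by
    intro c u v
    rw [dd, dd, hA, hA]
    have : (φ c * c • u)⁻¹ * (φ c * c • v) = c • (u⁻¹ * v) := by
      rw [smul_mul', smul_inv']; group
    rw [this, norm_smul]
  -- the level
  have hlev : ∀ c : C, lam Ω (φ c) = 1 := by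
    let L : C →* Multiplicative ℤ :=
      { toFun := fun c => lam Ω (φ c)
        map_one' := by
          have h1 := hmul 1 1
          rw [one_mul, one_smul] at h1
          have h2 : φ 1 = 1 := by
            have h3 : φ 1 * 1 = φ 1 * φ 1 := by rw [mul_one]; exact h1
            exact (mul_left_cancel h3).symm
          rw [h2, map_one]
        map_mul' := fun a b => by
          rw [hmul, map_mul, lam_smul] }
    intro c
    change L c = 1
    have h1 : (L c) ^ Nat.card C = 1 := by
      rw [← map_pow, pow_card_eq_one', map_one]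
    have h2 : (Nat.card C : ℤ) * Multiplicative.toAdd (L c) = 0 := by
      have := congrArg Multiplicative.toAdd h1
      rw [toAdd_pow, toAdd_one, nsmul_eq_mul] at this
      exact this
    rcases mul_eq_zero.mp h2 with h3 | h3
    · have := Nat.card_pos (α := C)
      omega
    · exact h3
  -- two points of maximal distance
  obtain ⟨ab, hab⟩ := Finite.exists_max (fun p : C × C => dd (φ p.1) (φ p.2))
  obtain ⟨a, b⟩ := ab
  have hmax : ∀ c d : C, dd (φ c) (φ d) ≤ dd (φ a) (φ b) := fun c d => hab (c, d)
  obtain ⟨k, hk⟩ := lam_norm ((φ a)⁻¹ * φ b) (by rw [map_mul, map_inv, hlev, hlev]; simp)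
  have hk' : dd (φ a) (φ b) = 2 * k := hk
  set w := ((φ a)⁻¹ * φ b).toWord with hw
  have hwl : w.length = 2 * k := hk
  set m := φ a * FreeGroup.mk (w.take k) with hm
  have hma : dd m (φ a) ≤ k := by
    rw [dd_comm, dd, hm, inv_mul_cancel_left]
    refine FreeGroup.norm_mk_le.trans ?_
    rw [List.length_take]
    omega
  have hmb : dd m (φ b) ≤ k := by
    have h1 : φ b = φ a * FreeGroup.mk w := by rw [hw, FreeGroup.mk_toWord]; group
    have h2 : FreeGroup.mk w = FreeGroup.mk (w.take k) * FreeGroup.mk (w.drop k) := by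
      rw [FreeGroup.mul_mk, List.take_append_drop]
    rw [dd, h1, h2, hm]
    have h3 : (φ a * FreeGroup.mk (w.take k))⁻¹ *
        (φ a * (FreeGroup.mk (w.take k) * FreeGroup.mk (w.drop k))) = FreeGroup.mk (w.drop k) := by
      group
    rw [h3]
    refine FreeGroup.norm_mk_le.trans ?_
    rw [List.length_drop]
    omega
  have hms : ∀ c : C, dd m (φ c) ≤ k := by
    intro c
    have h1 := four_dd m (φ c) (φ a) (φ b)
    have h2 := hmax c b
    have h3 := hmax c a
    omega
  refine ⟨m, ?_⟩
  intro c
  have hcm : A c m = m := by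
    have h1 : ∀ d : C, dd (A c m) (φ d) ≤ k := by
      intro d
      have h2 : φ d = A c (φ (c⁻¹ * d)) := by rw [hφA]; congr 1; group
      rw [h2, hdA]
      exact hms _
    have h2 := four_dd m (A c m) (φ a) (φ b)
    have h3 := h1 a
    have h4 := h1 b
    have h5 := hms a
    have h6 := hms b
    have h7 : dd m (A c m) = 0 := by omega
    exact (dd_zero h7).symm
  rw [hA] at hcm
  exact eq_mul_inv_of_mul_eq hcm

end Pool.Agent.Y43.LR
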