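import Mathlib
import Pool.Agent.Y28.LR.Stm
import Pool.Agent.Y43.LR.Fixed

/-!
The cuts of the Cayley tree of a free group.
-/

set_option autoImplicit false

namespace Pool.Agent.Y43.LR

open Pool.Agent.Y28.LR Set Pointwise

attribute [local instance] Classical.propDecidable

variable {X : Type}

theorem dd_smul (k u v : FreeGroup X) : dd (k * u) (k * v) = dd u v := by
  rw [dd, dd]
  congr 1
  group

theorem dd_self (u : FreeGroup X) : dd u u = 0 := by
  rw [dd, inv_mul_cancel, FreeGroup.norm_one]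

theorem dd_tri (u v w : FreeGroup X) : dd u w ≤ dd u v + dd v w := by
  rw [dd, dd, dd]
  have h : u⁻¹ * w = (u⁻¹ * v) * (v⁻¹ * w) := by group
  rw [h]
  exact FreeGroup.norm_mul_le _ _

/-- the half-space of an edge -/
def Hs (a b : FreeGroup X) : Set (FreeGroup X) := {h | dd h b < dd h a}

theorem mem_Hs {a b h : FreeGroup X} : h ∈ Hs a b ↔ dd h b < dd h a := Iff.rfl

theorem norm_letter (z : X × Bool) : (FreeGroup.mk [z]).norm = 1 := by
  rw [FreeGroup.norm, FreeGroup.toWord_mk]
  simp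

theorem dd_letter (g : FreeGroup X) (z : X × Bool) : dd g (g * FreeGroup.mk [z]) = 1 := by
  rw [dd, inv_mul_cancel_left, norm_letter]

theorem parity (u v w : FreeGroup X) : ∃ k : ℤ, (dd u v : ℤ) + dd v w + dd u w = 2 * k := by
  obtain ⟨k1, h1⟩ := lam_parity (u⁻¹ * v).toWord
  obtain ⟨k2, h2⟩ := lam_parity (v⁻¹ * w).toWord
  obtain ⟨k3, h3⟩ := lam_parity (u⁻¹ * w).toWord
  rw [FreeGroup.mk_toWord] at h1 h2 h3
  have h4 : lam X (u⁻¹ * w) = lam X (u⁻¹ * v) * lam X (v⁻¹ * w) := by
    rw [← map_mul]; congr 1; group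
  rw [h4, toAdd_mul, h1, h2] at h3
  refine ⟨(dd u v : ℤ) + dd v w + k1 + k2 - k3, ?_⟩
  have e1 : (dd u v : ℤ) = ((u⁻¹ * v).toWord.length : ℤ) := rfl
  have e2 : (dd v w : ℤ) = ((v⁻¹ * w).toWord.length : ℤ) := rfl
  have e3 : (dd u w : ℤ) = ((u⁻¹ * w).toWord.length : ℤ) := rfl
  rw [e1, e2, e3]
  linarith

/-- alternative on the sides of an edge -/
theorem side {a b : FreeGroup X} (hab : dd a b = 1) (h : FreeGroup X) :
    dd h a = dd h b + 1 ∨ dd h b = dd h a + 1 := by
  obtain ⟨k, hk⟩ := parity h a b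
  have h1 := dd_tri h a b
  have h2 := dd_tri h b a
  rw [dd_comm b a] at h2
  omega

theorem Hs_compl {a b : FreeGroup X} (hab : dd a b = 1) : (Hs a b)ᶜ = Hs b a := by
  ext h
  rw [mem_compl_iff, mem_Hs, mem_Hs]
  rcases side hab h with h1 | h1 <;> omega

theorem cross {a b : FreeGroup X} (hab : dd a b = 1) {p r : FreeGroup X} (hp : p ∉ Hs a b)
    (hr : r ∈ Hs a b) : dd p r = dd p a + 1 + dd b r := by
  rw [mem_Hs] at hp hr
  have h1 := four_dd p b r a
  have h2 := dd_tri p a r
  have h3 := dd_tri a b r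
  rw [dd_comm b a] at h1
  rw [dd_comm r a] at h1 hr
  rw [dd_comm r b] at hr
  rcases side hab p with h4 | h4
  · omega
  · omega

theorem smul_Hs (k a b : FreeGroup X) : k • Hs a b = Hs (k * a) (k * b) := by
  ext h
  rw [mem_smul_set_iff_inv_smul_mem, mem_Hs, mem_Hs, smul_eq_mul]
  have e1 : dd (k⁻¹ * h) b = dd h (k * b) := by
    rw [← dd_smul k (k⁻¹ * h) b, mul_inv_cancel_left]
  have e2 : dd (k⁻¹ * h) a = dd h (k * a) := by
    rw [← dd_smul k (k⁻¹ * h) a, mul_inv_cancel_left]
  rw [e1, e2]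

theorem Hs_nested {a a' b b' : FreeGroup X} (ha : dd a a' = 1) (hb : dd b b' = 1) :
    Nested (Hs a a') (Hs b b') := by
  by_contra hN
  unfold Nested at hN
  push Not at hN
  obtain ⟨h1, h2, h3, h4⟩ := hN
  obtain ⟨q, hq1, hq2⟩ := not_subset.mp h1
  obtain ⟨r, hr1, hr2⟩ := not_subset.mp h2
  obtain ⟨p, hp1, hp2⟩ := Set.not_disjoint_iff.mp h3
  obtain ⟨u, hu⟩ := (ne_univ_iff_exists_notMem _).mp h4
  rw [mem_union, not_or] at hu
  obtain ⟨hu1, hu2⟩ := hu
  have e1 := cross ha hr2 hp1
  have e2 := cross ha hu1 hp1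
  have e3 := cross ha hr2 hq1
  have e4 := cross ha hu1 hq1
  have f1 := cross hb hq2 hp2
  have f2 := cross hb hu2 hp2
  have f3 := cross hb hq2 hr1
  have f4 := cross hb hu2 hr1
  have t1 := dd_tri q a' p
  have t2 := dd_tri u a r
  have c1 := dd_comm q a'
  have c2 := dd_comm a r
  have c3 := dd_comm p q
  have c4 := dd_comm r u
  have c5 := dd_comm r q
  omega

theorem edge {a b : FreeGroup X} (hab : dd a b = 1) {p r : FreeGroup X} (hp : p ∉ Hs a b)
    (hr : r ∈ Hs a b) (hpr : dd p r = 1) : p = a ∧ r = b := by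
  have h1 := cross hab hp hr
  exact ⟨dd_zero (by omega), (dd_zero (by omega)).symm⟩

theorem left_notMem {a b : FreeGroup X} : a ∉ Hs a b := by
  rw [mem_Hs, dd_self]; omega

theorem right_mem {a b : FreeGroup X} (hab : dd a b = 1) : b ∈ Hs a b := by
  rw [mem_Hs, dd_self, dd_comm, hab]; omega

theorem mk_single_inj {y z : X × Bool} (h : FreeGroup.mk [y] = FreeGroup.mk [z]) : y = z := by
  have h1 := congrArg FreeGroup.toWord h
  rw [FreeGroup.toWord_mk, FreeGroup.toWord_mk] at h1
  simpa using h1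

/-- the geodesic from `p` to `q` -/
theorem on_geod {p q g : FreeGroup X} (h : dd p g + dd g q = dd p q) :
    g = p * FreeGroup.mk ((p⁻¹ * q).toWord.take (dd p g)) := by
  set w := (p⁻¹ * q).toWord with hw
  have hwl : w.length = dd p q := rfl
  set m := p * FreeGroup.mk (w.take (dd p g)) with hm
  have h1 : dd p m ≤ dd p g := by
    rw [dd, hm, inv_mul_cancel_left]
    refine FreeGroup.norm_mk_le.trans ?_
    rw [List.length_take]
    omega
  have h2 : dd m q ≤ dd g q := by
    have e1 : q = p * FreeGroup.mk w := by rw [hw, FreeGroup.mk_toWord]; group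
    have e2 : FreeGroup.mk w = FreeGroup.mk (w.take (dd p g)) * FreeGroup.mk (w.drop (dd p g)) := by
      rw [FreeGroup.mul_mk, List.take_append_drop]
    have e3 : m⁻¹ * q = FreeGroup.mk (w.drop (dd p g)) := by
      rw [hm]
      conv_lhs => rw [e1, e2]
      group
    have e4 : dd m q = (m⁻¹ * q).norm := rfl
    rw [e4, e3]
    refine FreeGroup.norm_mk_le.trans ?_
    rw [List.length_drop]
    omega
  have h3 := four_dd g m p q
  have h4 := dd_comm p g
  have h5 := dd_comm p m
  exact dd_zero (by omega)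

/-- the family of cuts -/
def UU (Y : Set X) : Set (Set (FreeGroup X)) :=
  {s | ∃ (g : FreeGroup X) (z : X × Bool), z.1 ∉ Y ∧ s = Hs g (g * FreeGroup.mk [z])}

theorem cutFamily (Y : Set X) : CutFamily (Subgroup.closure (FreeGroup.of '' Y)) (UU Y) := by
  refine ⟨?_, ?_, ?_, ?_, ?_, ?_, ?_⟩
  · rintro k s ⟨g, z, hz, rfl⟩
    exact ⟨k * g, z, hz, by rw [smul_Hs, mul_assoc]⟩
  · rintro s ⟨g, z, hz, rfl⟩
    refine ⟨g * FreeGroup.mk [z], (z.1, !z.2), hz, ?_⟩
    rw [Hs_compl (dd_letter g z)]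
    have : FreeGroup.mk [(z.1, !z.2)] = (FreeGroup.mk [z])⁻¹ := by
      rw [FreeGroup.inv_mk]
      simp [FreeGroup.invRev]
    rw [this, mul_inv_cancel_right]
  · rintro s ⟨g, z, hz, rfl⟩ t ⟨k, y, hy, rfl⟩
    exact Hs_nested (dd_letter g z) (dd_letter k y)
  · rintro s ⟨g, z, hz, rfl⟩ h d hd
    -- one letter
    have key : ∀ (h : FreeGroup X) (y : X × Bool), y.1 ∈ Y →
        (h * FreeGroup.mk [y] ∈ Hs g (g * FreeGroup.mk [z]) ↔ h ∈ Hs g (g * FreeGroup.mk [z])) := by
      intro h y hy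
      have h1 := dd_letter g z
      have h2 := dd_letter h y
      constructor
      · intro h3
        by_contra h4
        obtain ⟨e1, e2⟩ := edge h1 h4 h3 h2
        rw [e1] at e2
        have e3 := mk_single_inj (mul_left_cancel e2)
        rw [e3] at hy
        exact hz hy
      · intro h3
        by_contra h4
        obtain ⟨e1, e2⟩ := edge h1 h4 h3 (by rw [dd_comm]; exact h2)
        rw [e2, mul_assoc] at e1
        have e3 : FreeGroup.mk [z] * FreeGroup.mk [y] = 1 := mul_left_cancel (e1.trans (mul_one g).symm)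
        have e4 : FreeGroup.mk [z] = FreeGroup.mk [(y.1, !y.2)] := by
          rw [mul_eq_one_iff_eq_inv.mp e3, FreeGroup.inv_mk]
          simp [FreeGroup.invRev]
        have e5 := mk_single_inj e4
        rw [e5] at hz
        exact hz hy
    induction hd using Subgroup.closure_induction generalizing h with
    | mem x hx =>
      obtain ⟨y, hy, rfl⟩ := hx
      exact key h (y, true) hy
    | one => rw [mul_one]
    | mul x y _ _ hx hy =>
      rw [← mul_assoc]
      exact (hy (h * x)).trans (hx h)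
    | inv x _ hx =>
      have := hx (h * x⁻¹)
      rw [inv_mul_cancel_right] at this
      exact this.symm
  · rintro s ⟨g, z, hz, rfl⟩ k hk
    rw [smul_Hs] at hk
    have h1 := dd_letter g z
    have h2 : dd (k * g) (k * (g * FreeGroup.mk [z])) = 1 := by rw [dd_smul]; exact h1
    have h3 : g ∉ Hs (k * g) (k * (g * FreeGroup.mk [z])) := by rw [hk]; exact left_notMem
    have h4 : g * FreeGroup.mk [z] ∈ Hs (k * g) (k * (g * FreeGroup.mk [z])) := by
      rw [hk]; exact right_mem h1
    obtain ⟨e1, -⟩ := edge h2 h3 h4 h1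
    have e2 : 1 * g = k * g := by rw [one_mul]; exact e1
    exact (mul_right_cancel e2).symm
  · intro p q
    refine Set.Finite.subset (s := (fun i : ℕ × ℕ => Hs (p * FreeGroup.mk ((p⁻¹ * q).toWord.take i.1))
      (p * FreeGroup.mk ((p⁻¹ * q).toWord.take i.2))) '' (Set.Iic (dd p q) ×ˢ Set.Iic (dd p q))) ?_ ?_
    · exact ((Set.finite_Iic _).prod (Set.finite_Iic _)).image _
    · rintro s ⟨⟨g, z, hz, rfl⟩, hp, hq⟩
      have h1 := dd_letter g z
      set g' := g * FreeGroup.mk [z] with hg'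
      have h2 := cross h1 hp hq
      have h3 := dd_tri g g' q
      have h4 := dd_tri p g q
      have h5 := dd_tri p g g'
      have h6 := dd_tri p g' q
      refine ⟨(dd p g, dd p g'), ⟨?_, ?_⟩, ?_⟩
      · simp only [Set.mem_Iic]; omega
      · simp only [Set.mem_Iic]; omega
      · simp only
        rw [← on_geod (by omega : dd p g + dd g q = dd p q),
          ← on_geod (by omega : dd p g' + dd g' q = dd p q)]
  · intro p q hpq
    have h1 : ∃ z ∈ (p⁻¹ * q).toWord, z.1 ∉ Y := by
      by_contra hcon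
      push Not at hcon
      apply hpq
      rw [← FreeGroup.mk_toWord (x := p⁻¹ * q)]
      generalize (p⁻¹ * q).toWord = L at hcon
      induction L with
      | nil => exact Subgroup.one_mem _
      | cons x L ih =>
        have he : FreeGroup.mk (x :: L) = FreeGroup.mk [x] * FreeGroup.mk L := by
          rw [FreeGroup.mul_mk]; rfl
        rw [he]
        refine Subgroup.mul_mem _ ?_ (ih fun z hz => hcon z (List.mem_cons_of_mem _ hz))
        have hx := hcon x List.mem_cons_self
        have h1 : FreeGroup.of x.1 ∈ Subgroup.closure (FreeGroup.of '' Y) :=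
          Subgroup.subset_closure ⟨x.1, hx, rfl⟩
        obtain ⟨x1, e⟩ := x
        cases e
        · have h2 : FreeGroup.mk [(x1, false)] = (FreeGroup.of x1)⁻¹ := by
            simp [FreeGroup.of, FreeGroup.inv_mk, FreeGroup.invRev]
          rw [h2]
          exact Subgroup.inv_mem _ h1
        · exact h1
    obtain ⟨z, hz, hzY⟩ := h1
    obtain ⟨l1, l2, hl⟩ := List.append_of_mem hz
    set g := p * FreeGroup.mk l1 with hg
    set g' := g * FreeGroup.mk [z] with hg'
    have hq : q = g' * FreeGroup.mk l2 := by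
      have e1 : q = p * FreeGroup.mk (l1 ++ z :: l2) := by
        rw [← hl, FreeGroup.mk_toWord]; group
      have e2 : l1 ++ z :: l2 = (l1 ++ [z]) ++ l2 := by simp
      rw [e1, e2, ← FreeGroup.mul_mk, ← FreeGroup.mul_mk, hg', hg]
      group
    have hn : dd p q = l1.length + 1 + l2.length := by
      have : dd p q = (p⁻¹ * q).toWord.length := rfl
      rw [this, hl]
      simp
      omega
    have h1 : dd p g ≤ l1.length := by
      rw [dd, hg, inv_mul_cancel_left]
      exact FreeGroup.norm_mk_le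
    have h2 : dd g' q ≤ l2.length := by
      rw [dd, hq, inv_mul_cancel_left]
      exact FreeGroup.norm_mk_le
    have h3 : dd g g' = 1 := dd_letter g z
    have h4 := dd_tri p g' q
    have h5 := dd_tri p g q
    have h6 := dd_comm q g
    have h7 := dd_comm q g'
    refine ⟨Hs g g', ⟨g, z, hzY, rfl⟩, ?_, ?_⟩
    · rw [mem_Hs]; omega
    · rw [mem_Hs]; omega

theorem cuts : P_cuts := fun _ Y => ⟨UU Y, cutFamily Y⟩

theorem norm_pow_cyc {c : List (X × Bool)} (hc : FreeGroup.IsCyclicallyReduced c) (n : ℕ) :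
    (FreeGroup.mk c ^ n).norm = n * c.length := by
  have h1 : FreeGroup.mk c ^ n = FreeGroup.mk (List.replicate n c).flatten := by
    rw [FreeGroup.pow_mk]
  rw [h1, FreeGroup.norm, FreeGroup.toWord_mk,
    FreeGroup.isReduced_iff_reduce_eq.mp (hc.flatten_replicate n).isReduced]
  simp

theorem cutshyp : P_cutshyp := by
  intro X
  have h0 := cutFamily (∅ : Set X)
  rw [Set.image_empty, Subgroup.closure_empty] at h0
  refine ⟨_, h0, ?_⟩
  intro f hf
  have hfr : FreeGroup.IsReduced f.toWord := FreeGroup.isReduced_toWord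
  set cl := FreeGroup.reduceCyclically f.toWord with hcl
  have hcyc : FreeGroup.IsCyclicallyReduced cl := FreeGroup.reduceCyclically.isCyclicallyReduced hfr
  set u := FreeGroup.mk (FreeGroup.reduceCyclically.conjugator f.toWord) with hu
  have hfu : f = u * FreeGroup.mk cl * u⁻¹ := by
    rw [hu, FreeGroup.inv_mk, FreeGroup.mul_mk, FreeGroup.mul_mk,
      FreeGroup.reduceCyclically.conj_conjugator_reduceCyclically, FreeGroup.mk_toWord]
  have hne : cl ≠ [] := by
    intro h
    rw [h] at hfu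
    apply hf
    rw [hfu]
    have : FreeGroup.mk ([] : List (X × Bool)) = 1 := rfl
    rw [this]
    group
  obtain ⟨z, l, hzl⟩ := List.exists_cons_of_ne_nil hne
  set c := FreeGroup.mk cl with hc
  have hcz : c = FreeGroup.mk [z] * FreeGroup.mk l := by
    rw [hc, hzl, FreeGroup.mul_mk]; rfl
  have hll : (FreeGroup.mk l).norm ≤ cl.length - 1 := by
    refine FreeGroup.norm_mk_le.trans ?_
    rw [hzl]
    simp
  have hlpos : 1 ≤ cl.length := by rw [hzl]; simp
  refine ⟨Hs u (u * FreeGroup.mk [z]), ⟨u, z, by simp, rfl⟩, u, ?_⟩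
  intro n hn
  have hfn : f ^ n * u = u * c ^ n := by
    rw [hfu, conj_pow]
    group
  have hfn' : f⁻¹ ^ n * u = u * (c ^ n)⁻¹ := by
    have : f⁻¹ = u * c⁻¹ * u⁻¹ := by rw [hfu]; group
    rw [this, conj_pow]
    group
  have hnorm : ∀ m, (c ^ m).norm = m * cl.length := norm_pow_cyc hcyc
  obtain ⟨m, rfl⟩ : ∃ m, n = m + 1 := ⟨n - 1, by omega⟩
  rw [hfn, hfn', mem_Hs, mem_Hs]
  constructor
  · have e1 : dd (u * c ^ (m + 1)) (u * FreeGroup.mk [z]) ≤ (m + 1) * cl.length - 1 := by
      rw [dd_smul, dd_comm, dd]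
      have : (FreeGroup.mk [z])⁻¹ * c ^ (m + 1) = FreeGroup.mk l * c ^ m := by
        have h1 : c ^ (m + 1) = FreeGroup.mk [z] * FreeGroup.mk l * c ^ m := by
          rw [← hcz, pow_succ']
        rw [h1]; group
      rw [this]
      refine (FreeGroup.norm_mul_le _ _).trans ?_
      rw [hnorm, add_mul, one_mul]
      omega
    have e2 : dd (u * c ^ (m + 1)) u = (m + 1) * cl.length := by
      rw [dd_comm, dd, inv_mul_cancel_left, hnorm]
    rw [e2]
    have : 1 ≤ (m + 1) * cl.length := Nat.mul_pos (by omega) hlpos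
    omega
  · have e1 : dd (u * (c ^ (m + 1))⁻¹) (u * FreeGroup.mk [z]) ≥ (m + 1) * cl.length + 1 := by
      rw [dd_smul, dd, inv_inv]
      have h1 : c ^ (m + 1 + 1) = c ^ (m + 1) * FreeGroup.mk [z] * FreeGroup.mk l := by
        rw [pow_succ, hcz, mul_assoc]
      have h2 := hnorm (m + 1 + 1)
      rw [h1] at h2
      have h3 := FreeGroup.norm_mul_le (c ^ (m + 1) * FreeGroup.mk [z]) (FreeGroup.mk l)
      rw [h2, add_mul (m + 1) 1, one_mul] at h3
      omega
    have e2 : dd (u * (c ^ (m + 1))⁻¹) u = (m + 1) * cl.length := by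
      rw [dd_comm, dd, inv_mul_cancel_left, FreeGroup.norm_inv_eq, hnorm]
    omega

end Pool.Agent.Y43.LR
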